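import Mathlib
import Pool.Agent.R987.Bern2
import Pool.Agent.R987.Tree
import Pool.Agent.H894R3.Ana

/-!
# Every factor-of-iid perfect matching of a regular tree has infinite expected coding volume

If the expected coding volume is finite, then resampling finitely many labels changes the output at
finitely many vertices only (mass transport and Borel-Cantelli). But two perfect matchings of a tree
that differ at finitely many vertices are equal: at a vertex of their difference farthest from the
root, both partners would have to be the parent. So the output is insensitive to resampling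
finitely many labels, hence deterministic, which contradicts the symmetry of the tree.
-/

set_option autoImplicit false

open MeasureTheory ProbabilityTheory Filter Topology Set
open scoped ENNReal

namespace Pool.Agent.Results.MP_b3cd0c_pr.InfiniteExpectedCodingVolume

/-- The law of independent labels, uniform on the unit interval, at the vertices. -/
noncomputable def labelLaw (V : Type) : Measure (V → unitInterval) :=
  Measure.infinitePi (fun _ : V => (volume : Measure unitInterval))

/-- `Φ` is a factor map from labellings of the vertices to sets of edges (given by their indicator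
on ordered pairs of vertices): it is measurable and commutes almost everywhere with every
automorphism of `G`. -/
structure IsFactor {V : Type} (G : SimpleGraph V)
    (Φ : (V → unitInterval) → V → V → Bool) : Prop where
  measurable : Measurable Φ
  equivariant : ∀ γ : G ≃g G, ∀ᵐ ω ∂(labelLaw V), ∀ u v : V,
    Φ (fun w => ω (γ.symm w)) (γ u) (γ v) = Φ ω u v

/-- `M` is (the indicator of) a perfect matching of `G`: a set of edges such that every vertex lies
in exactly one of them. -/
def IsPerfectMatching {V : Type} (G : SimpleGraph V) (M : V → V → Bool) : Prop :=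
  (∀ u v, M u v = M v u) ∧ (∀ u v, M u v = true → G.Adj u v) ∧ ∀ u, ∃! v, M u v = true

/-- The labels in the ball of radius `r` around `o` determine the output at the edges at `o`: it is
the same for every labelling `ω'` which agrees with `ω` on that ball. -/
def Determines {V : Type} (G : SimpleGraph V) (Φ : (V → unitInterval) → V → V → Bool) (o : V)
    (ω : V → unitInterval) (r : ℕ) : Prop :=
  ∀ ω' : V → unitInterval, (∀ u, G.dist o u ≤ r → ω' u = ω u) →
    ∀ v, G.Adj o v → Φ ω' o v = Φ ω o v

/-- The coding radius at `o`: the least `r` such that the labels in the ball of radius `r` around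
`o` determine the output at the edges at `o`, and `⊤` if there is no such `r`. -/
noncomputable def codingRadius {V : Type} (G : SimpleGraph V)
    (Φ : (V → unitInterval) → V → V → Bool) (o : V) (ω : V → unitInterval) : ℕ∞ :=
  ⨅ (r : ℕ) (_ : Determines G Φ o ω r), (r : ℕ∞)

/-- The coding volume at `o`: the number of vertices in the ball around `o` whose radius is the
coding radius. -/
noncomputable def codingVolume {V : Type} (G : SimpleGraph V)
    (Φ : (V → unitInterval) → V → V → Bool) (o : V) (ω : V → unitInterval) : ℕ∞ :=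
  {v | (G.dist o v : ℕ∞) ≤ codingRadius G Φ o ω}.encard

section

variable {V : Type} {G : SimpleGraph V} {Φ : (V → unitInterval) → V → V → Bool} {o : V}

instance : IsProbabilityMeasure (labelLaw V) := by unfold labelLaw; infer_instance

theorem Determines.mono {ω : V → unitInterval} {r s : ℕ} (h : Determines G Φ o ω r) (hrs : r ≤ s) :
    Determines G Φ o ω s :=
  fun ω' h' => h ω' fun u hu => h' u (hu.trans hrs)

theorem le_codingRadius_iff {ω : V → unitInterval} {k : ℕ} :
    (k : ℕ∞) ≤ codingRadius G Φ o ω ↔ ∀ r, r < k → ¬ Determines G Φ o ω r := by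
  rw [codingRadius]
  simp only [le_iInf_iff, Nat.cast_le]
  constructor
  · intro h r hr hd
    exact absurd (h r hd) (not_le.2 hr)
  · intro h r hd
    by_contra hlt
    exact h r (not_le.1 hlt) hd

theorem determines_of_lt {ω : V → unitInterval} {k : ℕ}
    (h : ¬ (k : ℕ∞) ≤ codingRadius G Φ o ω) : ∃ r, r < k ∧ Determines G Φ o ω r := by
  rw [le_codingRadius_iff] at h
  push Not at h
  exact h

theorem nullMeasurable_not_determines [Countable V] (hΦ : Measurable Φ) (r : ℕ) :
    NullMeasurableSet {ω | ¬ Determines G Φ o ω r} (labelLaw V) := by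
  classical
  have hev : ∀ (u v : V), Measurable (fun ω => Φ ω u v) := fun u v =>
    (measurable_pi_apply v).comp ((measurable_pi_apply u).comp hΦ)
  set S : Set ((V → unitInterval) × (V → unitInterval)) :=
    {z | (∀ u, G.dist o u ≤ r → z.2 u = z.1 u) ∧ ∃ v, G.Adj o v ∧ Φ z.2 o v ≠ Φ z.1 o v} with hS
  have hSm : MeasurableSet S := by
    have h1 : MeasurableSet {z : (V → unitInterval) × (V → unitInterval) |
        ∀ u, G.dist o u ≤ r → z.2 u = z.1 u} := by
      have : {z : (V → unitInterval) × (V → unitInterval) | ∀ u, G.dist o u ≤ r → z.2 u = z.1 u} =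
          ⋂ u, {z | G.dist o u ≤ r → z.2 u = z.1 u} := by ext z; simp
      rw [this]
      refine MeasurableSet.iInter fun u => ?_
      by_cases hu : G.dist o u ≤ r
      · simp only [hu, true_imp_iff]
        exact measurableSet_eq_fun ((measurable_pi_apply u).comp measurable_snd)
          ((measurable_pi_apply u).comp measurable_fst)
      · simp [hu]
    have h2 : MeasurableSet {z : (V → unitInterval) × (V → unitInterval) |
        ∃ v, G.Adj o v ∧ Φ z.2 o v ≠ Φ z.1 o v} := by
      have : {z : (V → unitInterval) × (V → unitInterval) |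
          ∃ v, G.Adj o v ∧ Φ z.2 o v ≠ Φ z.1 o v} =
          ⋃ v, {z | G.Adj o v ∧ Φ z.2 o v ≠ Φ z.1 o v} := by ext z; simp
      rw [this]
      refine MeasurableSet.iUnion fun v => ?_
      by_cases hv : G.Adj o v
      · simp only [hv, true_and]
        exact (measurableSet_eq_fun ((hev o v).comp measurable_snd)
          ((hev o v).comp measurable_fst)).compl
      · simp [hv]
    exact h1.inter h2
  have himg : {ω | ¬ Determines G Φ o ω r} = Prod.fst '' S := by
    ext ω
    simp only [Set.mem_ofPred_eq, Determines, hS, Set.mem_image, Prod.exists, exists_and_right,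
      exists_eq_right]
    push Not
    rfl
  rw [himg]
  exact Pool.Agent.H894R3.Ana.analytic_nullMeasurable (labelLaw V)
    (hSm.analyticSet_image measurable_fst)

theorem nullMeasurable_le [Countable V] (hΦ : Measurable Φ) (k : ℕ) :
    NullMeasurableSet {ω | (k : ℕ∞) ≤ codingRadius G Φ o ω} (labelLaw V) := by
  have : {ω | (k : ℕ∞) ≤ codingRadius G Φ o ω} =
      ⋂ r ∈ Finset.range k, {ω | ¬ Determines G Φ o ω r} := by
    ext ω
    simp only [Set.mem_ofPred_eq, le_codingRadius_iff, Set.mem_iInter, Finset.mem_range]
  rw [this]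
  exact NullMeasurableSet.biInter (Finset.countable_toSet _)
    fun r _ => nullMeasurable_not_determines hΦ r

theorem lintegral_codingVolume [Countable V] (hΦ : Measurable Φ) :
    ∫⁻ ω, (codingVolume G Φ o ω : ℝ≥0∞) ∂(labelLaw V) =
      ∑' v, labelLaw V {ω | (G.dist o v : ℕ∞) ≤ codingRadius G Φ o ω} := by
  classical
  have h1 : ∀ ω, (codingVolume G Φ o ω : ℝ≥0∞) = ∑' v, Set.indicator
      {ω | (G.dist o v : ℕ∞) ≤ codingRadius G Φ o ω} (fun _ => (1 : ℝ≥0∞)) ω := by
    intro ω
    have h2 : ∀ v, Set.indicator {ω | (G.dist o v : ℕ∞) ≤ codingRadius G Φ o ω}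
        (fun _ => (1 : ℝ≥0∞)) ω = Set.indicator {v | (G.dist o v : ℕ∞) ≤ codingRadius G Φ o ω}
        (fun _ => (1 : ℝ≥0∞)) v := by
      intro v
      by_cases h : (G.dist o v : ℕ∞) ≤ codingRadius G Φ o ω
      · rw [Set.indicator_of_mem (by exact h), Set.indicator_of_mem (by exact h)]
      · rw [Set.indicator_of_notMem (by exact h), Set.indicator_of_notMem (by exact h)]
    simp_rw [h2]
    rw [← tsum_subtype, ENNReal.tsum_one]
    rfl
  simp_rw [h1]
  rw [lintegral_tsum]
  · refine tsum_congr fun v => ?_
    rw [lintegral_indicator₀ (nullMeasurable_le hΦ _)]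
    simp
  · intro v
    exact (aemeasurable_const).indicator₀ (nullMeasurable_le hΦ _)

end

/-- Two perfect matchings of a tree which differ at finitely many vertices only are equal. -/
theorem matching_unique {V : Type} {G : SimpleGraph V} (hG : G.IsTree) {M M' : V → V → Bool}
    (hM : IsPerfectMatching G M) (hM' : IsPerfectMatching G M')
    (hfin : {v | ∃ w, M v w ≠ M' v w}.Finite) : M = M' := by
  classical
  by_contra hne
  obtain ⟨o⟩ := hG.connected.nonempty
  have hnon : {v | ∃ w, M v w ≠ M' v w}.Nonempty := by
    by_contra hemp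
    apply hne
    funext v w
    by_contra h
    exact hemp ⟨v, w, h⟩
  obtain ⟨v, hv, hmax⟩ := Set.exists_max_image _ (fun v => G.dist o v) hfin hnon
  obtain ⟨a, ha, ha'⟩ := hM.2.2 v
  obtain ⟨b, hb, hb'⟩ := hM'.2.2 v
  have hab : a ≠ b := by
    rintro rfl
    obtain ⟨w, hw⟩ := hv
    by_cases h1 : M v w = true
    · have := ha' w h1
      rw [this, ha, hb] at hw
      exact hw rfl
    · by_cases h2 : M' v w = true
      · have := hb' w h2
        rw [this, ha, hb] at hw
        exact hw rfl
      · rw [Bool.not_eq_true] at h1 h2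
        rw [h1, h2] at hw
        exact hw rfl
  have hma : M' v a ≠ true := fun h => hab (hb' a h)
  have hmb : M v b ≠ true := fun h => hab (ha' b h).symm
  have haD : a ∈ {v | ∃ w, M v w ≠ M' v w} := by
    refine ⟨v, ?_⟩
    rw [← hM.1 v a, ← hM'.1 v a, ha]
    exact fun h => hma h.symm
  have hbD : b ∈ {v | ∃ w, M v w ≠ M' v w} := by
    refine ⟨v, ?_⟩
    rw [← hM.1 v b, ← hM'.1 v b, hb]
    exact hmb
  have hadja := hM.2.1 v a ha
  have hadjb := hM'.2.1 v b hb
  have h1 := hmax a haD
  have h2 := hmax b hbD
  have h3 : G.dist o v = G.dist o a + 1 := by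
    rcases hG.dist_eq_dist_add_one_of_adj o hadja with h | h
    · exact h
    · omega
  have h4 : G.dist o v = G.dist o b + 1 := by
    rcases hG.dist_eq_dist_add_one_of_adj o hadjb with h | h
    · exact h
    · omega
  exact hab (Pool.Agent.R987.Tree.parent_unique hG o hadja hadjb h3 h4)

/-- Let `G` be the `Δ`-regular tree, `Δ ≥ 2` (for instance the 3-regular tree), and let `Φ` be a
factor of iid whose output is almost surely a perfect matching. Then the expected coding volume
`E |B(o, R)|` is infinite. -/
theorem result : ∀ (V : Type) (G : SimpleGraph V) (Δ : ℕ), 2 ≤ Δ → G.IsTree →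
    (∀ v : V, (G.neighborSet v).ncard = Δ) → ∀ (o : V) (Φ : (V → unitInterval) → V → V → Bool),
    IsFactor G Φ → (∀ᵐ ω ∂(labelLaw V), IsPerfectMatching G (Φ ω)) →
    ∫⁻ ω, (codingVolume G Φ o ω : ℝ≥0∞) ∂(labelLaw V) = ∞ := by
  intro V G Δ hΔ hG hdeg o Φ hΦ hPM
  classical
  by_contra hfin
  have hΔ0 : Δ ≠ 0 := by omega
  have hf : ∀ v, (G.neighborSet v).Finite := fun v =>
    Set.finite_of_ncard_ne_zero (by rw [hdeg v]; exact hΔ0)
  have hcount : Countable V := Pool.Agent.R987.Tree.countable hG.connected hf
  rw [lintegral_codingVolume hΦ.measurable] at hfin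
  set μ := labelLaw V with hμ
  have hev : ∀ (u v : V), Measurable (fun ω => Φ ω u v) := fun u v =>
    (measurable_pi_apply v).comp ((measurable_pi_apply u).comp hΦ.measurable)
  -- automorphisms moving `o` to `v`
  choose γ hγ using fun v => Pool.Agent.R987.Tree.transitive hΔ0 hG hdeg o v
  have mp : ∀ f : V → V, Function.Injective f → MeasurePreserving
      (fun ω : V → unitInterval => fun w => ω (f w)) μ μ := fun f hf =>
    ⟨Pool.Agent.R987.Bern.measurable_comp f,
      Pool.Agent.R987.Bern.map_comp (volume : Measure unitInterval) f hf⟩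
  -- the output at `v` in terms of the output at `o`
  have hout : ∀ᵐ ω ∂μ, ∀ v y, Φ ω v y = Φ (fun w => ω (γ v w)) o ((γ v).symm y) := by
    rw [ae_all_iff]
    intro v
    have h1 := (mp (γ v) (γ v).injective).quasiMeasurePreserving.ae (hΦ.equivariant (γ v))
    filter_upwards [h1] with ω h2 y
    have h3 := h2 o ((γ v).symm y)
    rw [hγ] at h3
    simpa using h3
  -- the bad events
  set E : Finset V → V → Set ((V → unitInterval) × (V → unitInterval)) := fun F v =>
    {z | ∃ x ∈ F, (G.dist v x : ℕ∞) ≤ codingRadius G Φ o (fun w => z.1 (γ v w))} with hE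
  have hsum : ∀ x : V, ∑' v, μ {ω | (G.dist v x : ℕ∞) ≤ codingRadius G Φ o ω} ≠ ∞ := by
    intro x
    rw [← (γ x).toEquiv.tsum_eq]
    have : ∀ v, μ {ω | (G.dist ((γ x).toEquiv v) x : ℕ∞) ≤ codingRadius G Φ o ω} =
        μ {ω | (G.dist o v : ℕ∞) ≤ codingRadius G Φ o ω} := by
      intro v
      have h1 : G.dist ((γ x).toEquiv v) x = G.dist o v := by
        have h2 := Pool.Agent.R987.Tree.dist_iso (γ x) v o
        rw [hγ] at h2
        rw [SimpleGraph.dist_comm (u := o)]
        exact h2
      rw [h1]
    simp_rw [this]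
    exact hfin
  have hbad : ∀ F : Finset V, ∑' v, (μ.prod μ) (E F v) ≠ ∞ := by
    intro F
    have h1 : ∀ v, (μ.prod μ) (E F v) ≤
        ∑ x ∈ F, μ {ω | (G.dist v x : ℕ∞) ≤ codingRadius G Φ o ω} := by
      intro v
      have h2 : E F v ⊆ ⋃ x ∈ F, Prod.fst ⁻¹' ((fun ω : V → unitInterval => fun w => ω (γ v w)) ⁻¹'
          {ω | (G.dist v x : ℕ∞) ≤ codingRadius G Φ o ω}) := by
        rintro z ⟨x, hx, hz⟩
        simp only [Set.mem_iUnion]
        exact ⟨x, hx, hz⟩
      refine (measure_mono h2).trans ((measure_biUnion_finset_le _ _).trans ?_)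
      refine Finset.sum_le_sum fun x _ => ?_
      have hn := nullMeasurable_le (G := G) (o := o) hΦ.measurable (G.dist v x)
      have hn2 := hn.preimage (mp (γ v) (γ v).injective).quasiMeasurePreserving
      rw [(measurePreserving_fst (μ := μ) (ν := μ)).measure_preimage hn2,
        (mp (γ v) (γ v).injective).measure_preimage hn]
    refine ne_top_of_le_ne_top ?_ (ENNReal.tsum_le_tsum h1)
    have h3 : ∑' v, ∑ x ∈ F, μ {ω | (G.dist v x : ℕ∞) ≤ codingRadius G Φ o ω} =
        ∑ x ∈ F, ∑' v, μ {ω | (G.dist v x : ℕ∞) ≤ codingRadius G Φ o ω} :=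
      Summable.tsum_finsetSum fun x _ => ENNReal.summable
    rw [h3]
    exact (ENNReal.sum_lt_top.2 fun x _ => lt_top_iff_ne_top.2 (hsum x)).ne
  -- resampling finitely many labels does not change the output
  have hres : ∀ F : Finset V, ∀ᵐ z ∂(μ.prod μ),
      Φ z.1 = Φ (Pool.Agent.R987.Bern.resample F z) := by
    intro F
    have hmp1 : MeasurePreserving (Prod.fst : (V → unitInterval) × (V → unitInterval) → _)
      (μ.prod μ) μ := measurePreserving_fst
    have hmp2 : MeasurePreserving (Pool.Agent.R987.Bern.resample F) (μ.prod μ) μ :=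
      ⟨Pool.Agent.R987.Bern.measurable_resample F,
        Pool.Agent.R987.Bern.map_resample (volume : Measure unitInterval) F⟩
    filter_upwards [ae_finite_setOfPred_mem (hbad F), hmp1.quasiMeasurePreserving.ae hPM,
      hmp2.quasiMeasurePreserving.ae hPM, hmp1.quasiMeasurePreserving.ae hout,
      hmp2.quasiMeasurePreserving.ae hout] with z hz h1 h2 h3 h4
    refine matching_unique hG h1 h2 (hz.subset ?_)
    rintro v ⟨y, hy⟩
    by_contra hv
    apply hy
    have hadj : ∀ M : V → V → Bool, IsPerfectMatching G M → ¬ G.Adj v y → M v y = false := by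
      intro M hM hnot
      by_contra h
      exact hnot (hM.2.1 v y (by simpa using h))
    by_cases hvy : G.Adj v y
    · rw [h3 v y, h4 v y]
      have hv' : ∀ x ∈ F, ∃ r, r < G.dist v x ∧
          Determines G Φ o (fun w => z.1 (γ v w)) r := by
        intro x hx
        apply determines_of_lt
        intro hle
        exact hv ⟨x, hx, hle⟩
      have hoy : G.Adj o ((γ v).symm y) := by
        rw [← (γ v).map_adj_iff, hγ]
        simpa using hvy
      by_cases hF : F.Nonempty
      · obtain ⟨x0, hx0, hmin⟩ := F.exists_min_image (fun x => G.dist v x) hF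
        obtain ⟨r, hr, hdet⟩ := hv' x0 hx0
        refine (hdet _ ?_ _ hoy).symm
        intro u hu
        have hu2 : γ v u ∉ F := by
          intro hmem
          have h5 := hmin _ hmem
          have h6 := Pool.Agent.R987.Tree.dist_iso (γ v) o u
          rw [hγ] at h6
          omega
        simp only [Pool.Agent.R987.Bern.resample, if_neg hu2]
      · rw [Finset.not_nonempty_iff_eq_empty] at hF
        subst hF
        congr 1
    · rw [hadj _ h1 hvy, hadj _ h2 hvy]
  -- zero-one law
  have hzo : ∀ x : V, μ {ω | Φ ω o x = true} = 0 ∨ μ {ω | Φ ω o x = true} = 1 := by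
    intro x
    refine Pool.Agent.R987.Bern.zero_one_resample (volume : Measure unitInterval)
      ((hev o x) (measurableSet_singleton true)) fun F => ?_
    filter_upwards [hres F] with z hz
    rw [hz]
  by_cases hall : ∀ x : V, μ {ω | Φ ω o x = true} = 0
  · have h1 : ∀ᵐ ω ∂μ, ∀ x, ¬ Φ ω o x = true := by
      rw [ae_all_iff]
      intro x
      have := hall x
      rw [ae_iff]
      simpa using this
    obtain ⟨ω, h2, h3⟩ := (h1.and hPM).exists
    obtain ⟨x, hx, _⟩ := h3.2.2 o
    exact h2 x hx
  · push Not at hall
    obtain ⟨x0, hx0⟩ := hall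
    have h1 : μ {ω | Φ ω o x0 = true} = 1 := (hzo x0).resolve_left hx0
    have h1' : ∀ᵐ ω ∂μ, Φ ω o x0 = true := by
      have := (prob_compl_eq_zero_iff ((hev o x0) (measurableSet_singleton true))).2 h1
      rw [ae_iff]
      exact this
    have hadj0 : G.Adj o x0 := by
      obtain ⟨ω, h2, h3⟩ := (h1'.and hPM).exists
      exact h3.2.1 o x0 h2
    obtain ⟨x1, hx1, hne⟩ : ∃ x1, G.Adj o x1 ∧ x1 ≠ x0 := by
      by_contra hcon
      push Not at hcon
      have hsub : G.neighborSet o ⊆ {x0} := fun x hx => hcon x hx
      have := Set.ncard_le_ncard hsub (Set.finite_singleton x0)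
      rw [hdeg o, Set.ncard_singleton] at this
      omega
    obtain ⟨φ, hφo, hφx⟩ := Pool.Agent.R987.Tree.transitive_arc hΔ0 hG hdeg hadj0 hx1
    have hb := (mp φ.symm φ.symm.injective).quasiMeasurePreserving.ae hPM
    have hb1 := (mp φ.symm φ.symm.injective).quasiMeasurePreserving.ae h1'
    obtain ⟨ω, h2, h3, h4, h5⟩ := (h1'.and ((hΦ.equivariant φ).and (hb.and hb1))).exists
    have h6 := h3 o x0
    rw [hφo, hφx, h2] at h6
    obtain ⟨y, _, hy'⟩ := h4.2.2 o
    exact hne ((hy' x1 h6).trans (hy' x0 h5).symm)

end Pool.Agent.Results.MP_b3cd0c_pr.InfiniteExpectedCodingVolume
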